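import Pool.Agent.HP42.FS.Ser

/-!
# MP_0ad054_nt: asymptotic formula with the singular series

For odd `n` let `P(n)` be the number of primitive representations `n = x² + y² + z² + w²` and `R(n, t)` the number of
those for which `p = x² + 3y² + 5z² + 7w²` and `p - 2` have no prime factor up to `t`. We prove
`R(n, t) ~ e ^ (-2 γ) 𝔖(n) P(n) / (log t)²` as `t → ∞`, `log t = o(log n)`, uniformly, where
`𝔖(n) = ∏_l (1 - g(n, l)) (1 - 1/l)⁻²` is the convergent product over all primes of the local densities which the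
question predicts for twin primes; it lies between positive constants. The number of all representations with twin
primes `p - 2`, `p` is at most `C P(n) / (log n)²`, the predicted order.
-/

set_option autoImplicit false

namespace Pool.Agent.Results.MP_0ad054_nt.AsymptoticFormula

/-- the value `x² + 3y² + 5z² + 7w²` -/
def form (v : ℤ × ℤ × ℤ × ℤ) : ℤ := v.1 ^ 2 + 3 * v.2.1 ^ 2 + 5 * v.2.2.1 ^ 2 + 7 * v.2.2.2 ^ 2

/-- the primitive representations of `n` as a sum of four squares -/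
def prim (n : ℕ) : Set (ℤ × ℤ × ℤ × ℤ) :=
  {v | v.1 ^ 2 + v.2.1 ^ 2 + v.2.2.1 ^ 2 + v.2.2.2 ^ 2 = (n : ℤ) ∧
    Int.gcd (Int.gcd v.1 v.2.1) (Int.gcd v.2.2.1 v.2.2.2) = 1}

/-- the primitive representations such that `p` and `p - 2` have no prime factor up to `t` -/
def rough (n t : ℕ) : Set (ℤ × ℤ × ℤ × ℤ) :=
  {v | v ∈ prim n ∧ ∀ q : ℕ, q.Prime → q ≤ t → ¬ (q : ℤ) ∣ form v * (form v - 2)}

/-- the representations such that `p` and `p - 2` are primes -/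
def twin (n : ℕ) : Set (ℤ × ℤ × ℤ × ℤ) :=
  {v | v.1 ^ 2 + v.2.1 ^ 2 + v.2.2.1 ^ 2 + v.2.2.2 ^ 2 = (n : ℤ) ∧ (form v).toNat.Prime ∧
    (form v - 2).toNat.Prime}

/-- the share of the solutions of `p (p - 2) = 0` among the nonzero solutions of `x² + y² + z² + w² = n` modulo `l` -/
noncomputable def dens (n l : ℕ) : ℝ :=
  (({u : Fin 4 → ZMod l | u ≠ 0 ∧ u 0 ^ 2 + u 1 ^ 2 + u 2 ^ 2 + u 3 ^ 2 = (n : ZMod l) ∧
    (u 0 ^ 2 + 3 * u 1 ^ 2 + 5 * u 2 ^ 2 + 7 * u 3 ^ 2) *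
      (u 0 ^ 2 + 3 * u 1 ^ 2 + 5 * u 2 ^ 2 + 7 * u 3 ^ 2 - 2) = 0}.ncard : ℕ) : ℝ) /
  (({u : Fin 4 → ZMod l | u ≠ 0 ∧ u 0 ^ 2 + u 1 ^ 2 + u 2 ^ 2 + u 3 ^ 2 = (n : ZMod l)}.ncard : ℕ) : ℝ)

/-- the factor of the singular series at `l` -/
noncomputable def factor (n l : ℕ) : ℝ := if l.Prime then (1 - dens n l) / (1 - 1 / (l : ℝ)) ^ 2 else 1

open Pool.Agent.HP42.FS Pool.Agent.W65.FS

lemma prim_co (n : ℕ) (X : Fin 4 → ℤ) : co X ∈ prim n ↔ X ∈ preps n := by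
  unfold prim
  rw [Set.mem_ofPred_eq, mem_preps, gc_iff, Fin.sum_univ_four]
  rfl

lemma rough_co (n t : ℕ) (X : Fin 4 → ℤ) : co X ∈ rough n t ↔ X ∈ WW n t := by
  unfold rough
  rw [Set.mem_ofPred_eq, prim_co, mem_WW', mem_preps]
  rfl

lemma dens_eq (n l : ℕ) (hl : l.Prime) : dens n l = gg ff n l := by
  classical
  have : NeZero l := ⟨hl.ne_zero⟩
  unfold dens gg
  congr 2
  · rw [Bl_card_filter, ← Set.ncard_coe_finset]
    congr 1
    ext u
    simp only [Set.mem_ofPred_eq, Finset.coe_filter, Finset.mem_univ, true_and, Fin.sum_univ_four]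
    tauto
  · rw [Gl_card_eq, ← Set.ncard_coe_finset]
    congr 1
    ext u
    simp only [Set.mem_ofPred_eq, Finset.coe_filter, Finset.mem_univ, true_and, Fin.sum_univ_four]
    tauto

lemma factor_eq (n : ℕ) : factor n = Pool.Agent.HP42.FS.FF n := by
  funext l
  unfold factor Pool.Agent.HP42.FS.FF
  split_ifs with h
  · rw [dens_eq n l h, one_div]
  · rfl

lemma twin_bound : ∃ C : ℝ, ∃ n₀ : ℕ, ∀ n : ℕ, Odd n → n₀ ≤ n →
    ((twin n).ncard : ℝ) ≤ C * (prim n).ncard / (Real.log n) ^ 2 := by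
  classical
  obtain ⟨δ, c, C, hδ, hc, hC, K, n0, h⟩ := order
  refine ⟨C, n0, ?_⟩
  intro n hno hn
  obtain ⟨h1, h2, h3, h4⟩ := h n hno hn
  have e1 : (prim n).ncard = (preps n).card := ncard_of _ _ (prim_co n)
  have hsub : twin n ⊆ co '' ((WW n ⌊(n : ℝ) ^ δ⌋₊ : Finset (Fin 4 → ℤ)) : Set (Fin 4 → ℤ)) := by
    intro v hv
    obtain ⟨X, rfl⟩ := co_surj v
    obtain ⟨k1, k2, k3⟩ := hv
    refine ⟨X, ?_, rfl⟩
    rw [Finset.mem_coe]
    refine h4 X ?_ k2 k3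
    rw [Fin.sum_univ_four]
    exact k1
  rw [e1]
  refine le_trans ?_ h2
  have h5 := Set.ncard_le_ncard hsub ((Finset.finite_toSet _).image _)
  rw [Set.ncard_image_of_injective _ co_inj, Set.ncard_coe_finset] at h5
  exact_mod_cast h5

theorem result : (∃ c C : ℝ, 0 < c ∧ ∀ n : ℕ, Odd n → Multipliable (factor n) ∧
      c ≤ ∏' l, factor n l ∧ ∏' l, factor n l ≤ C) ∧
    (∀ ε : ℝ, 0 < ε → ∃ δ : ℝ, 0 < δ ∧ ∃ N : ℕ, ∀ n t : ℕ, Odd n → N ≤ t → (t : ℝ) ≤ (n : ℝ) ^ δ →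
      |((rough n t).ncard : ℝ) -
          Real.exp (-2 * Real.eulerMascheroniConstant) * (∏' l, factor n l) * (prim n).ncard / (Real.log t) ^ 2| ≤
        ε * (Real.exp (-2 * Real.eulerMascheroniConstant) * (∏' l, factor n l) * (prim n).ncard / (Real.log t) ^ 2)) ∧
    ∃ C : ℝ, ∃ n₀ : ℕ, ∀ n : ℕ, Odd n → n₀ ≤ n →
      ((twin n).ncard : ℝ) ≤ C * (prim n).ncard / (Real.log n) ^ 2 := by
  obtain ⟨⟨c, C, hc, h1⟩, h2⟩ := asymp_series
  have e0 : ∀ n, ∏' l, factor n l = Sg n := fun n => by rw [factor_eq]; rfl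
  refine ⟨⟨c, C, hc, fun n hn => ?_⟩, fun ε hε => ?_, twin_bound⟩
  · rw [e0, factor_eq]
    exact ⟨multipliable_FF n, h1 n hn⟩
  · obtain ⟨δ, hδ, N, h⟩ := h2 ε hε
    refine ⟨δ, hδ, N, fun n t hn hN ht => ?_⟩
    rw [e0, ncard_of _ _ (prim_co n), ncard_of _ _ (rough_co n t)]
    exact h n t hn hN ht

end Pool.Agent.Results.MP_0ad054_nt.AsymptoticFormula
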